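import Pool.Agent.H566M.AllW
import Pool.Agent.H31R3.AL.Code

set_option autoImplicit false

/-! Linear orders with a monotone relation and unary predicates in the framework of generalised
sums. -/

namespace Pool.Agent.H31R3.SO

open Set MeasureTheory
open Pool.Agent.H533R2.VO (RS RIso VC Dich)
open Pool.Agent.H533R2.VS (p2 IsSum US UIso VCu UDich)
open Pool.Agent.H566P (ar R2 v2 a0 a1 lt ac co mk)
open Pool.Agent.H566M (LM mk1 mo)
open Pool.Agent.H31R3.AL (c0 c1 c0_p2 c1_p2 c0_comp c1_comp transfer m_bool)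

/-- arities: three binary relations and unary relations -/
def bb : ℕ → ℕ
  | 0 => 2
  | 1 => 2
  | 2 => 2
  | (_ + 3) => 1

/-- the relations between blocks -/
def kk : ℕ → Bool
  | 0 => false
  | 1 => true
  | 2 => true
  | (_ + 3) => false

theorem p2_eta (v : Fin 2 → ℕ) : (p2 (c0 v) (c1 v) : Fin 2 → ℕ) = v := by
  funext j
  unfold p2
  fin_cases j
  · simp [c0]
  · simp [c1]

/-- linear orders with a monotone relation -/
structure V1 (z : RS bb) : Prop where
  irr : ∀ x, z 1 (p2 x x) = false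
  tr : ∀ x y w, z 1 (p2 x y) = true → z 1 (p2 y w) = true → z 1 (p2 x w) = true
  tot : ∀ x y, x ≠ y → z 1 (p2 x y) = true ∨ z 1 (p2 y x) = true
  mono : ∀ x x' y y', (x' = x ∨ z 1 (p2 x' x) = true) → z 2 (p2 x y) = true →
    (y = y' ∨ z 1 (p2 y y') = true) → z 2 (p2 x' y') = true
  zero : z 0 = fun _ => false
  una : ∀ i, z (i + 3) = fun _ => false

/-- the code -/
noncomputable def cd (x : US bb) : R2 :=
  mk1 (fun m n => x.1 1 (p2 m n) = true) (fun m n => x.1 2 (p2 m n) = true)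
    (fun i m => x.2 i m = true)

/-- relabelling -/
def actU (σ : Equiv.Perm ℕ) (x : US bb) : US bb :=
  (Pool.Agent.H533R2.VS.act σ x.1, fun i m => x.2 i (σ.symm m))

theorem a0_comp {m : ℕ} (h : 0 < m) (f : ℕ → ℕ) (v : Fin m → ℕ) : a0 (f ∘ v) = f (a0 v) := by
  unfold a0
  rw [dif_pos h, dif_pos h]
  rfl

theorem a1_comp {m : ℕ} (h : 1 < m) (f : ℕ → ℕ) (v : Fin m → ℕ) : a1 (f ∘ v) = f (a1 v) := by
  unfold a1
  rw [dif_pos h, dif_pos h]
  rfl

open Classical in
theorem mk_equiv (L L' : ℕ → ℕ → Prop) (A A' : ℕ → ℕ → ℕ → Prop) (C C' : ℕ → ℕ → Prop)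
    (σ : Equiv.Perm ℕ) (h1 : ∀ x y, L' (σ x) (σ y) ↔ L x y)
    (h2 : ∀ n x y, A' n (σ x) (σ y) ↔ A n x y) (h3 : ∀ n x, C' n (σ x) ↔ C n x)
    (i : ℕ) (v : Fin (ar i) → ℕ) : mk L' A' C' i (⇑σ ∘ v) = mk L A C i v := by
  unfold mk
  apply decide_eq_decide.2
  by_cases hi : i = 0
  · subst hi
    rw [if_pos rfl, if_pos rfl, a0_comp (by simp [ar]), a1_comp (by simp [ar])]
    exact h1 _ _
  · rw [if_neg hi, if_neg hi]
    by_cases hi2 : i % 2 = 1
    · rw [if_pos hi2, if_pos hi2, a0_comp (by simp [ar, hi2]), a1_comp (by simp [ar, hi2])]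
      exact h2 _ _ _
    · rw [if_neg hi2, if_neg hi2, a0_comp (by simp [ar, hi, hi2])]
      exact h3 _ _

theorem p2_comp {m : ℕ} (f : ℕ → ℕ) (x y : ℕ) : (p2 (f x) (f y) : Fin m → ℕ) = f ∘ p2 x y := by
  funext j
  unfold p2
  simp only [Function.comp]
  split_ifs <;> rfl

theorem act_p2 (σ : Equiv.Perm ℕ) (z : RS bb) (i x y : ℕ) :
    Pool.Agent.H533R2.VS.act σ z i (p2 (σ x) (σ y)) = z i (p2 x y) := by
  unfold Pool.Agent.H533R2.VS.act
  rw [p2_comp σ]
  congr 1
  funext j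
  simp

theorem cd_act (σ : Equiv.Perm ℕ) (x : US bb) (i : ℕ) (v : Fin (ar i) → ℕ) :
    cd (actU σ x) i (⇑σ ∘ v) = cd x i v := by
  unfold cd mk1
  apply mk_equiv
  · intro m n
    show Pool.Agent.H533R2.VS.act σ x.1 1 (p2 (σ m) (σ n)) = true ↔ _
    rw [act_p2]
  · intro k m n
    show _ ∧ Pool.Agent.H533R2.VS.act σ x.1 2 (p2 (σ m) (σ n)) = true ↔ _
    rw [act_p2]
  · intro k m
    show x.2 k (σ.symm (σ m)) = true ↔ _
    rw [σ.symm_apply_apply]

theorem cd_lt (x : US bb) (m n : ℕ) : lt (cd x) m n ↔ x.1 1 (p2 m n) = true :=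
  Pool.Agent.H566P.t_ACC.1 (fun m n => x.1 1 (p2 m n) = true)
    (fun n m k => n = 0 ∧ x.1 2 (p2 m k) = true) (fun i m => x.2 i m = true) m n

theorem cd_ac (x : US bb) (k m n : ℕ) : ac (cd x) k m n ↔ k = 0 ∧ x.1 2 (p2 m n) = true :=
  Pool.Agent.H566P.t_ACC.2.1 (fun m n => x.1 1 (p2 m n) = true)
    (fun n m k => n = 0 ∧ x.1 2 (p2 m k) = true) (fun i m => x.2 i m = true) k m n

theorem cd_co (x : US bb) (k m : ℕ) : co (cd x) k m ↔ x.2 k m = true :=
  Pool.Agent.H566P.t_ACC.2.2.1 (fun m n => x.1 1 (p2 m n) = true)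
    (fun n m k => n = 0 ∧ x.1 2 (p2 m k) = true) (fun i m => x.2 i m = true) k m

theorem cd_LM (x : US bb) (hx : V1 x.1) : LM (cd x) := by
  refine ⟨?_, ?_, ?_, ?_, ?_⟩
  · intro m h
    rw [cd_lt, hx.irr] at h
    exact Bool.noConfusion h
  · intro m n k
    rw [cd_lt, cd_lt, cd_lt]
    exact hx.tr m n k
  · intro m n
    rw [cd_lt, cd_lt]
    exact hx.tot m n
  · intro m m' n n' h1 h2 h3
    unfold mo at h2 ⊢
    rw [cd_ac] at h2 ⊢
    rw [cd_lt] at h1 h3
    exact ⟨rfl, hx.mono m m' n n' h1 h2.2 h3⟩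
  · intro k m n h
    rw [cd_ac] at h
    exact absurd h.1 (Nat.succ_ne_zero k)

theorem cd_inj (x y : US bb) (hx : V1 x.1) (hy : V1 y.1) (h : cd x = cd y) : x = y := by
  have h1 : x.1 1 = y.1 1 := by
    funext v
    have e : (p2 (c0 v) (c1 v) : Fin (bb 1) → ℕ) = v := p2_eta v
    have h2 := cd_lt x (c0 v) (c1 v)
    have h3 := cd_lt y (c0 v) (c1 v)
    rw [e] at h2 h3
    rw [h] at h2
    exact Bool.eq_iff_iff.2 (h2.symm.trans h3)
  have h2 : x.1 2 = y.1 2 := by
    funext v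
    have e : (p2 (c0 v) (c1 v) : Fin (bb 2) → ℕ) = v := p2_eta v
    have h2 := cd_ac x 0 (c0 v) (c1 v)
    have h3 := cd_ac y 0 (c0 v) (c1 v)
    rw [e] at h2 h3
    rw [h] at h2
    have h4 := h2.symm.trans h3
    apply Bool.eq_iff_iff.2
    exact ⟨fun h5 => (h4.1 ⟨rfl, h5⟩).2, fun h5 => (h4.2 ⟨rfl, h5⟩).2⟩
  have h3 : x.2 = y.2 := by
    funext i m
    have h2 := cd_co x i m
    have h3 := cd_co y i m
    rw [h] at h2
    exact Bool.eq_iff_iff.2 (h2.symm.trans h3)
  refine Prod.ext ?_ h3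
  funext i
  match i with
  | 0 => rw [hx.zero, hy.zero]
  | 1 => exact h1
  | 2 => exact h2
  | (i + 3) => rw [hx.una, hy.una]

theorem cd_meas : Measurable cd := by
  refine Pool.Agent.H566P.t_ACC.2.2.2.2.2.2.2.2.2.2.1 _ cd ?_ ?_ ?_
  · intro m n
    have e : {ω : US bb | lt (cd ω) m n} = (fun ω : US bb => ω.1 1 (p2 m n)) ⁻¹' {true} := by
      ext ω
      exact cd_lt ω m n
    rw [e]
    have h : Measurable (fun ω : US bb => ω.1 1 (p2 m n)) :=
      (measurable_pi_apply _).comp ((measurable_pi_apply _).comp measurable_fst)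
    exact h (measurableSet_singleton _)
  · intro k m n
    have e : {ω : US bb | ac (cd ω) k m n} =
        {_ω : US bb | k = 0} ∩ (fun ω : US bb => ω.1 2 (p2 m n)) ⁻¹' {true} := by
      ext ω
      exact cd_ac ω k m n
    rw [e]
    have h : Measurable (fun ω : US bb => ω.1 2 (p2 m n)) :=
      (measurable_pi_apply _).comp ((measurable_pi_apply _).comp measurable_fst)
    exact (MeasurableSet.const _).inter (h (measurableSet_singleton _))
  · intro k m
    have e : {ω : US bb | co (cd ω) k m} = (fun ω : US bb => ω.2 k m) ⁻¹' {true} := by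
      ext ω
      exact cd_co ω k m
    rw [e]
    have h : Measurable (fun ω : US bb => ω.2 k m) :=
      (measurable_pi_apply _).comp ((measurable_pi_apply _).comp measurable_snd)
    exact h (measurableSet_singleton _)

theorem pol_US : PolishSpace (US bb) := by
  have h1 : PolishSpace (RS bb) := Pool.Agent.H533R2.VS.kis_pRS bb
  have h2 : PolishSpace (ℕ → Bool) := Pool.Agent.H533R2.VS.kis_pB ℕ
  have h3 : PolishSpace (ℕ → ℕ → Bool) := by
    have k1 : SecondCountableTopology (ℕ → ℕ → Bool) := inferInstance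
    have k2 : TopologicalSpace.SeparableSpace (ℕ → ℕ → Bool) := inferInstance
    have k3 : TopologicalSpace.IsCompletelyMetrizableSpace (ℕ → ℕ → Bool) := inferInstance
    infer_instance
  have k1 : SecondCountableTopology (US bb) := inferInstance
  have k2 : TopologicalSpace.SeparableSpace (US bb) := inferInstance
  have k3 : TopologicalSpace.IsCompletelyMetrizableSpace (US bb) := inferInstance
  infer_instance

theorem actU_iso (σ : Equiv.Perm ℕ) (x : US bb) : UIso x (actU σ x) := by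
  refine ⟨σ, fun i v => ?_, fun i u => ?_⟩
  · show x.1 i (⇑σ.symm ∘ (⇑σ ∘ v)) = x.1 i v
    have e : (⇑σ.symm ∘ (⇑σ ∘ v)) = v := by
      funext k
      exact σ.symm_apply_apply (v k)
    rw [e]
  · show x.2 i (σ.symm (σ u)) = x.2 i u
    rw [σ.symm_apply_apply]

theorem iso_actU {x y : US bb} (h : UIso x y) : ∃ σ, y = actU σ x := by
  obtain ⟨σ, h1, h2⟩ := h
  refine ⟨σ, Prod.ext ?_ ?_⟩
  · funext i v
    have h3 := h1 i (⇑σ.symm ∘ v)
    have e : (⇑σ ∘ (⇑σ.symm ∘ v)) = v := by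
      funext k
      exact σ.apply_symm_apply (v k)
    rw [e] at h3
    exact h3
  · funext i u
    have h3 := h2 i (σ.symm u)
    rw [σ.apply_symm_apply] at h3
    exact h3

theorem vcu_V1 : VCu V1 := by
  intro B hB hi hV
  have hP := pol_US
  have hBo : BorelSpace (US bb) := inferInstance
  have hne : Nonempty (US bb) := ⟨(fun _ _ => false, fun _ _ => false)⟩
  rcases transfer actU (fun x : US bb => V1 x.1) LM cd cd_meas cd_inj cd_act cd_LM
    Pool.Agent.H566M.vcLM B hB hV (fun x hx σ => (hi _ _ (actU_iso σ x)).1 hx) with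
    ⟨f, hf⟩ | ⟨g, hg, hgB, hgi⟩
  · left
    refine ⟨f, fun x hx => ?_⟩
    obtain ⟨n, σ, h⟩ := hf x hx
    refine ⟨n, ?_⟩
    rw [h]
    exact actU_iso σ _
  · right
    refine ⟨g, hg, hgB, fun A A' h => hgi A A' (iso_actU h)⟩

end Pool.Agent.H31R3.SO
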