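import Pool.Agent.H31R3.SO.Index

set_option autoImplicit false

/-! Semiorders with unary predicates. -/

namespace Pool.Agent.H31R3.SO

open Set MeasureTheory
open Pool.Agent.H533R2.VO (RS RIso VC Dich)
open Pool.Agent.H533R2.VS (p2 IsSum US UIso VCu UDich)
open Pool.Agent.H899R2.VP (gaifman HasCliqueSubdivision)
open Pool.Agent.H31R3.AL (c0 c1 c0_p2 c1_p2 c0_comp c1_comp transfer m_bool no_sub)

/-- strict semiorders -/
structure Semi (s : ℕ → ℕ → Bool) : Prop where
  irr : ∀ x, s x x = false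
  io : ∀ x y z w, s x y = true → s z w = true → s x w = true ∨ s z y = true
  st : ∀ x y z w, s x y = true → s y z = true → s x w = true ∨ s w z = true

/-- the trace -/
def Le (s : ℕ → ℕ → Bool) (x y : ℕ) : Prop :=
  (∀ w, s w x = true → s w y = true) ∧ ∀ w, s y w = true → s x w = true

/-- twins -/
def Tw (s : ℕ → ℕ → Bool) (x y : ℕ) : Prop := Le s x y ∧ Le s y x

/-- strict trace -/
def Lt (s : ℕ → ℕ → Bool) (x y : ℕ) : Prop := Le s x y ∧ ¬ Le s y x

variable {s : ℕ → ℕ → Bool}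

theorem le_refl' (x : ℕ) : Le s x x := ⟨fun _ h => h, fun _ h => h⟩

theorem le_tr {x y z : ℕ} (h1 : Le s x y) (h2 : Le s y z) : Le s x z :=
  ⟨fun w h => h2.1 w (h1.1 w h), fun w h => h1.2 w (h2.2 w h)⟩

theorem le_tot (hs : Semi s) (x y : ℕ) : Le s x y ∨ Le s y x := by
  by_contra hcon
  push Not at hcon
  obtain ⟨h1, h2⟩ := hcon
  have h1' : (∃ w, s w x = true ∧ s w y ≠ true) ∨ ∃ w, s y w = true ∧ s x w ≠ true := by
    by_contra h
    push Not at h
    exact h1 h
  have h2' : (∃ w, s w y = true ∧ s w x ≠ true) ∨ ∃ w, s x w = true ∧ s y w ≠ true := by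
    by_contra h
    push Not at h
    exact h2 h
  rcases h1' with ⟨w, a1, a2⟩ | ⟨w, a1, a2⟩ <;> rcases h2' with ⟨u, b1, b2⟩ | ⟨u, b1, b2⟩
  · rcases hs.io w x u y a1 b1 with h | h
    · exact a2 h
    · exact b2 h
  · rcases hs.st w x u y a1 b1 with h | h
    · exact a2 h
    · exact b2 h
  · rcases hs.st u y w x b1 a1 with h | h
    · exact b2 h
    · exact a2 h
  · rcases hs.io y w x u a1 b1 with h | h
    · exact b2 h
    · exact a2 h

theorem s_mono {x x' y y' : ℕ} (h1 : Le s x' x) (h2 : s x y = true) (h3 : Le s y y') :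
    s x' y' = true := h3.1 _ (h1.2 _ h2)

theorem lt_tr {x y z : ℕ} (h1 : Lt s x y) (h2 : Lt s y z) : Lt s x z :=
  ⟨le_tr h1.1 h2.1, fun h => h1.2 (le_tr h2.1 h)⟩

theorem lt_tw {x x' y y' : ℕ} (h1 : Tw s x x') (h2 : Tw s y y') (h : Lt s x y) : Lt s x' y' :=
  ⟨le_tr h1.2 (le_tr h.1 h2.1), fun h3 => h.2 (le_tr h2.1 (le_tr h3 h1.2))⟩

/-- the structures -/
abbrev YY : Type := (ℕ → ℕ → Bool) × (ℕ → ℕ → Bool)

/-- relabelling -/
def relY (σ : Equiv.Perm ℕ) (x : YY) : YY :=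
  (fun m n => x.1 (σ.symm m) (σ.symm n), fun i m => x.2 i (σ.symm m))

open Classical in
/-- the code -/
noncomputable def cs (x : YY) : RS bb
  | 0 => fun v => decide (Tw x.1 (c0 v) (c1 v))
  | 1 => fun v => decide (Lt x.1 (c0 v) (c1 v))
  | 2 => fun v => x.1 (c0 v) (c1 v)
  | (i + 3) => fun v => x.2 i (c0 v)

open Classical in
theorem cs_zero (x : YY) (v : Fin (bb 0) → ℕ) : cs x 0 v = true ↔ Tw x.1 (c0 v) (c1 v) := by
  show decide (Tw x.1 (c0 v) (c1 v)) = true ↔ _
  exact decide_eq_true_iff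

open Classical in
theorem cs_one (x : YY) (v : Fin (bb 1) → ℕ) : cs x 1 v = true ↔ Lt x.1 (c0 v) (c1 v) := by
  show decide (Lt x.1 (c0 v) (c1 v)) = true ↔ _
  exact decide_eq_true_iff

theorem b0 : 0 < bb 0 ∧ 1 < bb 0 := ⟨Nat.two_pos, Nat.one_lt_two⟩
theorem b1 : 0 < bb 1 ∧ 1 < bb 1 := ⟨Nat.two_pos, Nat.one_lt_two⟩
theorem b2 : 0 < bb 2 ∧ 1 < bb 2 := ⟨Nat.two_pos, Nat.one_lt_two⟩
theorem b3 (i : ℕ) : 0 < bb (i + 3) := Nat.one_pos

theorem cs_zero' (x : YY) (m n : ℕ) : cs x 0 (p2 m n) = true ↔ Tw x.1 m n := by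
  rw [cs_zero, c0_p2 b0.1, c1_p2 b0.2]

theorem cs_one' (x : YY) (m n : ℕ) : cs x 1 (p2 m n) = true ↔ Lt x.1 m n := by
  rw [cs_one, c0_p2 b1.1, c1_p2 b1.2]

theorem cs_two' (x : YY) (m n : ℕ) : cs x 2 (p2 m n) = x.1 m n := by
  show x.1 (c0 (p2 m n : Fin (bb 2) → ℕ)) (c1 (p2 m n : Fin (bb 2) → ℕ)) = _
  rw [c0_p2 b2.1, c1_p2 b2.2]

theorem rel_le (σ : Equiv.Perm ℕ) (x : YY) (m n : ℕ) :
    Le (relY σ x).1 (σ m) (σ n) ↔ Le x.1 m n := by
  unfold Le relY
  simp only [Equiv.symm_apply_apply]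
  constructor
  · rintro ⟨h1, h2⟩
    refine ⟨fun w h => ?_, fun w h => ?_⟩
    · have := h1 (σ w)
      rw [σ.symm_apply_apply] at this
      exact this h
    · have := h2 (σ w)
      rw [σ.symm_apply_apply] at this
      exact this h
  · rintro ⟨h1, h2⟩
    exact ⟨fun w h => h1 _ h, fun w h => h2 _ h⟩

theorem cs_act (σ : Equiv.Perm ℕ) (x : YY) (i : ℕ) (v : Fin (bb i) → ℕ) :
    cs (relY σ x) i (⇑σ ∘ v) = cs x i v := by
  match i, v with
  | 0, v =>
    refine Bool.eq_iff_iff.2 ((cs_zero _ _).trans (Iff.trans ?_ (cs_zero _ _).symm))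
    rw [c0_comp b0.1, c1_comp b0.2]
    exact and_congr (rel_le σ x _ _) (rel_le σ x _ _)
  | 1, v =>
    refine Bool.eq_iff_iff.2 ((cs_one _ _).trans (Iff.trans ?_ (cs_one _ _).symm))
    rw [c0_comp b1.1, c1_comp b1.2]
    exact and_congr (rel_le σ x _ _) (not_congr (rel_le σ x _ _))
  | 2, v =>
    show x.1 (σ.symm (c0 (⇑σ ∘ v))) (σ.symm (c1 (⇑σ ∘ v))) = x.1 (c0 v) (c1 v)
    rw [c0_comp b2.1, c1_comp b2.2, σ.symm_apply_apply, σ.symm_apply_apply]
  | (i + 3), v =>
    show x.2 i (σ.symm (c0 (⇑σ ∘ v))) = x.2 i (c0 v)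
    rw [c0_comp (b3 i), σ.symm_apply_apply]

theorem cs_inj (x y : YY) (h : cs x = cs y) : x = y := by
  refine Prod.ext ?_ ?_
  · funext m n
    rw [← cs_two' x, ← cs_two' y, h]
  · funext i m
    have h1 := congrFun (congrFun h (i + 3)) (p2 m m)
    have h2 : x.2 i (c0 (p2 m m : Fin (bb (i + 3)) → ℕ)) =
      y.2 i (c0 (p2 m m : Fin (bb (i + 3)) → ℕ)) := h1
    rwa [c0_p2 (b3 i)] at h2

theorem m_le (m n : ℕ) : Measurable fun x : YY => Le x.1 m n := by
  have h1 : ∀ m n, Measurable fun x : YY => x.1 m n = true := by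
    intro m n
    have h : Measurable fun x : YY => x.1 m n :=
      (measurable_pi_apply n).comp ((measurable_pi_apply m).comp measurable_fst)
    exact measurableSet_setOfPred.1 (h (measurableSet_singleton true))
  unfold Le
  exact (Measurable.forall fun w => (h1 w m).imp (h1 w n)).and
    (Measurable.forall fun w => (h1 n w).imp (h1 m w))

theorem cs_meas : Measurable cs := by
  refine measurable_pi_iff.2 fun i => measurable_pi_iff.2 fun v => ?_
  match i, v with
  | 0, v => exact m_bool _ _ (fun x => cs_zero x v) ((m_le _ _).and (m_le _ _))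
  | 1, v => exact m_bool _ _ (fun x => cs_one x v) ((m_le _ _).and (m_le _ _).not)
  | 2, v =>
    exact (measurable_pi_apply _).comp ((measurable_pi_apply _).comp measurable_fst)
  | (i + 3), v =>
    exact (measurable_pi_apply _).comp ((measurable_pi_apply _).comp measurable_snd)

theorem cs_sum (x : YY) (hx : Semi x.1) : IsSum 0 kk V1
    (fun z : RS bb => ¬ HasCliqueSubdivision (gaifman z)) (cs x) := by
  have hk : ∀ i, kk i = true → i = 1 ∨ i = 2 := by
    intro i hi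
    match i with
    | 0 => exact absurd hi (by decide)
    | 1 => exact Or.inl rfl
    | 2 => exact Or.inr rfl
    | (i + 3) => exact absurd hi (by show ¬ (false = true); decide)
  have hu : ∀ i (t : Fin (bb (i + 3)) → ℕ) j l, t j = t l := by
    intro i t j l
    have : j = l := by
      have hj : j.1 < 1 := j.2
      have hl : l.1 < 1 := l.2
      exact Fin.ext (by omega)
    rw [this]
  refine ⟨?_, ?_, ?_, ?_, ?_, ?_, ?_⟩
  · intro u
    rw [cs_zero']
    exact ⟨le_refl' u, le_refl' u⟩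
  · intro u v
    rw [cs_zero', cs_zero']
    exact fun h => ⟨h.2, h.1⟩
  · intro u v w
    rw [cs_zero', cs_zero', cs_zero']
    exact fun h1 h2 => ⟨le_tr h1.1 h2.1, le_tr h2.2 h1.2⟩
  · intro i hi hki t ht j l
    match i, t, j, l with
    | 0, t, j, l => exact absurd rfl hi
    | 1, t, j, l => exact absurd hki (by decide)
    | 2, t, j, l => exact absurd hki (by decide)
    | (i + 3), t, j, l =>
      rw [cs_zero', hu i t j l]
      exact ⟨le_refl' _, le_refl' _⟩
  · intro i hi hki t t' htt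
    rcases hk i hki with rfl | rfl
    · have h0 := htt ⟨0, b1.1⟩
      have h1 := htt ⟨1, b1.2⟩
      rw [cs_zero'] at h0 h1
      have e0 : ∀ t : Fin (bb 1) → ℕ, c0 t = t ⟨0, b1.1⟩ := fun t => by
        unfold c0
        rw [dif_pos b1.1]
      have e1 : ∀ t : Fin (bb 1) → ℕ, c1 t = t ⟨1, b1.2⟩ := fun t => by
        unfold c1
        rw [dif_pos b1.2]
      apply Bool.eq_iff_iff.2
      rw [cs_one, cs_one, e0, e1, e0, e1]
      exact ⟨lt_tw h0 h1, lt_tw ⟨h0.2, h0.1⟩ ⟨h1.2, h1.1⟩⟩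
    · have h0 := htt ⟨0, b2.1⟩
      have h1 := htt ⟨1, b2.2⟩
      rw [cs_zero'] at h0 h1
      have e0 : ∀ t : Fin (bb 2) → ℕ, c0 t = t ⟨0, b2.1⟩ := fun t => by
        unfold c0
        rw [dif_pos b2.1]
      have e1 : ∀ t : Fin (bb 2) → ℕ, c1 t = t ⟨1, b2.2⟩ := fun t => by
        unfold c1
        rw [dif_pos b2.2]
      show x.1 (c0 t) (c1 t) = x.1 (c0 t') (c1 t')
      rw [e0, e1, e0, e1]
      apply Bool.eq_iff_iff.2
      exact ⟨fun h => s_mono h0.2 h h1.1, fun h => s_mono h0.1 h h1.2⟩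
  · intro u e he _
    refine no_sub _ fun m => ?_
    have h1 : {n | (gaifman (fun (i : ℕ) (v : Fin (bb i) → ℕ) =>
        if i ≠ 0 ∧ kk i = false then cs x i (e ∘ v) else false)).Adj m n} ⊆ ∅ := by
      rintro n ⟨hne, i, t, h2, ⟨j, hj⟩, ⟨l, hl⟩⟩
      match i, t, j, l with
      | 0, t, j, l => simp at h2
      | 1, t, j, l => simp [kk] at h2
      | 2, t, j, l => simp [kk] at h2
      | (i + 3), t, j, l =>
        apply hne
        rw [← hj, ← hl]
        exact hu i t j l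
    exact Set.finite_empty.subset h1
  · intro e he hcov
    have hne0 : (1 : ℕ) ≠ 0 := one_ne_zero
    have k1 : ∀ m n, (fun (i : ℕ) (v : Fin (bb i) → ℕ) =>
        if i ≠ 0 ∧ kk i = true then cs x i (e ∘ v) else false) 1 (p2 m n) = true ↔
        Lt x.1 (e m) (e n) := by
      intro m n
      show (if 1 ≠ 0 ∧ kk 1 = true then cs x 1 (e ∘ p2 m n) else false) = true ↔ _
      rw [if_pos ⟨one_ne_zero, rfl⟩, ← p2_comp, cs_one']
    have k2 : ∀ m n, (fun (i : ℕ) (v : Fin (bb i) → ℕ) =>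
        if i ≠ 0 ∧ kk i = true then cs x i (e ∘ v) else false) 2 (p2 m n) = true ↔
        x.1 (e m) (e n) = true := by
      intro m n
      show (if 2 ≠ 0 ∧ kk 2 = true then cs x 2 (e ∘ p2 m n) else false) = true ↔ _
      rw [if_pos ⟨two_ne_zero, rfl⟩, ← p2_comp, cs_two']
    refine ⟨?_, ?_, ?_, ?_, ?_, ?_⟩
    · intro m
      rw [← Bool.not_eq_true, k1]
      exact fun h => h.2 (le_refl' _)
    · intro m n k
      rw [k1, k1, k1]
      exact lt_tr
    · intro m n hmn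
      rw [k1, k1]
      have h1 : ¬ Tw x.1 (e m) (e n) := by
        rw [← cs_zero', he]
        exact hmn
      rcases le_tot hx (e m) (e n) with h | h
      · exact Or.inl ⟨h, fun h2 => h1 ⟨h, h2⟩⟩
      · exact Or.inr ⟨h, fun h2 => h1 ⟨h2, h⟩⟩
    · intro m m' n n' h1 h2 h3
      rw [k2] at h2 ⊢
      refine s_mono ?_ h2 ?_
      · rcases h1 with rfl | h1
        · exact le_refl' _
        · exact ((k1 _ _).1 h1).1
      · rcases h3 with rfl | h3
        · exact le_refl' _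
        · exact ((k1 _ _).1 h3).1
    · funext v
      show (if 0 ≠ 0 ∧ kk 0 = true then cs x 0 (e ∘ v) else false) = false
      simp
    · intro i
      funext v
      show (if i + 3 ≠ 0 ∧ kk (i + 3) = true then cs x (i + 3) (e ∘ v) else false) = false
      rw [if_neg]
      rintro ⟨-, h⟩
      exact absurd h (by show ¬ (false = true); decide)

theorem bpos : ∀ i, 0 < bb i
  | 0 => Nat.two_pos
  | 1 => Nat.two_pos
  | 2 => Nat.two_pos
  | (_ + 3) => Nat.one_pos

theorem vc_semi : VC (IsSum 0 kk V1 (fun z : RS bb => ¬ HasCliqueSubdivision (gaifman z))) :=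
  Pool.Agent.H533R2.VS.vs_plain_sum bb bpos 0 rfl kk V1 _ vcu_V1
    (Pool.Agent.H533R2.VS.vs_plain _ _ (Pool.Agent.H533R2.VS.vs_sparse bb))

theorem pol_YY : PolishSpace YY := by
  have h2 : PolishSpace (ℕ → Bool) := Pool.Agent.H533R2.VS.kis_pB ℕ
  have h3 : PolishSpace (ℕ → ℕ → Bool) := by
    have k1 : SecondCountableTopology (ℕ → ℕ → Bool) := inferInstance
    have k2 : TopologicalSpace.SeparableSpace (ℕ → ℕ → Bool) := inferInstance
    have k3 : TopologicalSpace.IsCompletelyMetrizableSpace (ℕ → ℕ → Bool) := inferInstance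
    infer_instance
  have k1 : SecondCountableTopology YY := inferInstance
  have k2 : TopologicalSpace.SeparableSpace YY := inferInstance
  have k3 : TopologicalSpace.IsCompletelyMetrizableSpace YY := inferInstance
  infer_instance

/-- The dichotomy for semiorders with unary predicates. -/
theorem semi_main (B : Set YY) (hB : MeasurableSet B) (hA : ∀ x ∈ B, Semi x.1)
    (hi : ∀ x ∈ B, ∀ σ, relY σ x ∈ B) :
    (∃ f : ℕ → YY, ∀ x ∈ B, ∃ n, ∃ σ : Equiv.Perm ℕ, x = relY σ (f n)) ∨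
    (∃ g : (ℕ → Bool) → YY, Continuous g ∧ (∀ A, g A ∈ B) ∧
      ∀ A A', (∃ σ : Equiv.Perm ℕ, g A' = relY σ (g A)) → A = A') := by
  have hP := pol_YY
  exact transfer relY (fun x : YY => Semi x.1) _ cs cs_meas (fun x y _ _ h => cs_inj x y h)
    cs_act cs_sum vc_semi B hB hA hi

end Pool.Agent.H31R3.SO
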